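import Pool.Agent.H79.BR.Targets
import Pool.Agent.H27.LS.Chi

/-!
Module CKB of br_modules (board of helpers 93, 83, 79): pointwise bound for the kernel of mj away
from the origin.
-/

set_option autoImplicit false

namespace Pool.Agent.H11.BR

open MeasureTheory Set FourierTransform
open Pool.Agent.H83.LS Pool.Agent.H93.AR Pool.Agent.H54.LS Pool.Agent.H14.LS Pool.Agent.H79.BR
open scoped ENNReal NNReal

lemma pr_sub {n : ℕ} (x y : EE (n + 1)) : pr (x - y) = pr x - pr y := by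
  ext i
  simp [pr]

lemma pr_smul {n : ℕ} (c : ℝ) (x : EE (n + 1)) : pr (c • x) = c • pr x := by
  ext i
  simp [pr]

lemma norm_pr_le {n : ℕ} (x : EE (n + 1)) : ‖pr x‖ ≤ ‖x‖ := by
  rw [← Pool.Agent.H54.LS.hor_eq]; exact Pool.Agent.H54.LS.hor_le_norm x

lemma hor_sub_hor_le {n : ℕ} (x y : EE (n + 1)) : hor x - hor y ≤ ‖x - y‖ := by
  rw [Pool.Agent.H54.LS.hor_eq, Pool.Agent.H54.LS.hor_eq]
  have h1 := norm_sub_norm_le (pr x) (pr y)
  rw [← pr_sub] at h1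
  exact h1.trans (norm_pr_le _)

lemma hor_neg_smul {n : ℕ} (c : ℝ) (hc : 0 ≤ c) (x : EE (n + 1)) : hor (-(c • x)) = c * hor x := by
  rw [Pool.Agent.H54.LS.hor_eq, Pool.Agent.H54.LS.hor_eq, ← neg_smul, pr_smul, norm_smul, norm_neg, Real.norm_eq_abs, abs_of_nonneg hc]

lemma mj_bound {n : ℕ} (lam Lam t : ℝ) (hl : 0 < lam) (ξ : EE (n + 1)) :
    ‖mj n lam Lam t ξ‖ ≤ (Metric.closedBall (0 : EE (n + 1)) (2 * lam)).indicator (fun _ => (1 : ℝ)) ξ := by
  by_cases h : ξ ∈ Metric.closedBall (0 : EE (n + 1)) (2 * lam)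
  · rw [indicator_of_mem h]
    unfold mj
    rw [norm_mul, norm_e, one_mul, Complex.norm_real, Real.norm_eq_abs, abs_mul]
    have h1 := Pool.Agent.H83.LS.H27.abs_chi_le (‖ξ‖ / lam)
    have h2 := Pool.Agent.H83.LS.H27.abs_chi_le (hor ξ / Lam)
    have h3 := abs_nonneg (chi (‖ξ‖ / lam))
    have h4 := abs_nonneg (chi (hor ξ / Lam))
    nlinarith
  · rw [indicator_of_notMem h]
    rw [mem_closedBall_zero_iff, not_le] at h
    have h1 : chi (‖ξ‖ / lam) = 0 := by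
      by_contra h2
      have h3 := (Pool.Agent.H83.LS.H27.chi_supp h2).2
      rw [div_lt_iff₀ hl] at h3
      linarith
    unfold mj
    simp [h1]

lemma MK_bound {n : ℕ} (lam Lam t : ℝ) (hl : 0 < lam) (hl4 : lam ≤ 4) (x : EE (n + 1)) :
    ‖MK (mj n lam Lam t) x‖ ≤ (volume : Measure (EE (n + 1))).real (Metric.closedBall 0 8) := by
  unfold MK
  have h1 : ∀ ξ : EE (n + 1), ‖e (inner ℝ x ξ) * mj n lam Lam t ξ‖ ≤
      (Metric.closedBall (0 : EE (n + 1)) (2 * lam)).indicator (fun _ => (1 : ℝ)) ξ := by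
    intro ξ
    rw [norm_mul, norm_e, one_mul]
    exact mj_bound lam Lam t hl ξ
  have h2 : Integrable ((Metric.closedBall (0 : EE (n + 1)) (2 * lam)).indicator
      (fun _ => (1 : ℝ))) := by
    rw [integrable_indicator_iff measurableSet_closedBall]
    exact integrableOn_const (measure_closedBall_lt_top).ne
  refine (norm_integral_le_of_norm_le h2 (Filter.Eventually.of_forall h1)).trans ?_
  rw [integral_indicator measurableSet_closedBall]
  rw [setIntegral_const, smul_eq_mul, mul_one]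
  exact measureReal_mono (Metric.closedBall_subset_closedBall (by linarith))
    (measure_closedBall_lt_top).ne

lemma inv_pow_two_mul_le {a b : ℝ} (N : ℕ) (hb : 0 < b) (h : b ≤ a) (ha : 1 ≤ a) :
    (a ^ (2 * N))⁻¹ ≤ (b ^ N)⁻¹ := by
  apply inv_anti₀ (by positivity)
  calc b ^ N ≤ a ^ N := pow_le_pow_left₀ hb.le h N
    _ ≤ a ^ (2 * N) := pow_le_pow_right₀ ha (by omega)

lemma inv_pow_two_mul_le' {a b c : ℝ} (N : ℕ) (hb : 0 < b) (h : b ≤ a) (hc : 0 < c) (h' : c ≤ a) :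
    (a ^ (2 * N))⁻¹ ≤ (b ^ N)⁻¹ * (c ^ N)⁻¹ := by
  have ha : 0 < a := by linarith
  rw [← mul_inv]
  apply inv_anti₀ (by positivity)
  calc b ^ N * c ^ N ≤ a ^ N * a ^ N :=
        mul_le_mul (pow_le_pow_left₀ hb.le h N) (pow_le_pow_left₀ hc.le h' N) (by positivity)
          (by positivity)
    _ = a ^ (2 * N) := by rw [two_mul, pow_add]

theorem pf_ckb (hCKA : T_CKA) (hCKP : T_CKP) (hKS : T_KS) : T_CKB := by
  intro n N hn
  obtain ⟨M, C0, hC0⟩ := hKS (n + 1) (2 * N) (by omega)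
  obtain ⟨B, hB⟩ := hCKA n M hn
  obtain ⟨V, hV⟩ : ∃ V : ℝ, V = (volume : Measure (EE (n + 1))).real (Metric.closedBall 0 8) := ⟨_, rfl⟩
  have hV0 : 0 ≤ V := by rw [hV]; positivity
  refine ⟨|C0 * B| * 2 ^ n * (2 ^ N + 1) + V * 27 ^ N, by positivity, ?_⟩
  intro lam Lam t x hl hL hL4 hL16 ht hx
  have hl0 : 0 < lam := by linarith
  have hx0 : 0 < ‖x‖ := by linarith
  have hxne : x ≠ 0 := norm_pos_iff.mp hx0
  obtain ⟨α, hα⟩ : ∃ α : ℝ, α = Lam / lam := ⟨_, rfl⟩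
  have hα0 : 0 < α := by rw [hα]; positivity
  have hα4 : α ≤ 4 := by rw [hα, div_le_iff₀ hl0]; exact hL4
  obtain ⟨D, hD⟩ : ∃ D : ℝ, D = max 0 (hor x / ‖x‖ - 4 * (Lam / lam)) := ⟨_, rfl⟩
  have hD0 : 0 ≤ D := by rw [hD]; exact le_max_left _ _
  have hD1 : D ≤ 1 := by
    rw [hD]
    apply max_le (by norm_num)
    have h1 : hor x / ‖x‖ ≤ 1 := by rw [div_le_one hx0]; exact Pool.Agent.H54.LS.hor_le_norm x
    rw [← hα]
    linarith
  have hs0 : 0 < Real.sqrt lam := Real.sqrt_pos.mpr hl0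
  have hs1 : 1 ≤ Real.sqrt lam := by
    rw [Real.one_le_sqrt]; exact hl
  have hss : Real.sqrt lam * Real.sqrt lam = lam := Real.mul_self_sqrt hl0.le
  have hsl : Real.sqrt lam ≤ lam := by nlinarith
  have hpow : 1 ≤ lam ^ ((n : ℝ) / 2 + 1) := Real.one_le_rpow hl (by positivity)
  rw [← hD]
  have hA : 1 ≤ 1 + lam * |‖x‖ - t| := by
    have : 0 ≤ lam * |‖x‖ - t| := by positivity
    linarith
  have hE : 1 ≤ 1 + Real.sqrt lam * D := by
    have : 0 ≤ Real.sqrt lam * D := by positivity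
    linarith
  obtain ⟨A, hAd⟩ : ∃ A : ℝ, A = 1 + lam * |‖x‖ - t| := ⟨_, rfl⟩
  obtain ⟨E, hEd⟩ : ∃ E : ℝ, E = 1 + Real.sqrt lam * D := ⟨_, rfl⟩
  rw [← hAd] at hA ⊢
  rw [← hEd] at hE ⊢
  have hA0 : 0 < A := by linarith
  have hE0 : 0 < E := by linarith
  rcases lt_or_ge (lam * ‖x‖) 1 with hR | hR
  · -- small case
    have hl4 : lam ≤ 4 := by nlinarith
    have hx1 : ‖x‖ ≤ 1 := by nlinarith
    have h1 := MK_bound (n := n) lam Lam t hl0 hl4 x
    rw [← hV] at h1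
    have h2 : A ≤ 9 := by
      rw [hAd]
      have : |‖x‖ - t| ≤ 2 := by
        rw [abs_le]; constructor <;> linarith [ht.1, ht.2]
      nlinarith [abs_nonneg (‖x‖ - t)]
    have h3 : E ≤ 3 := by
      rw [hEd]
      have h4 : Real.sqrt lam ≤ 2 := by
        rw [Real.sqrt_le_left (by norm_num)]; linarith
      nlinarith
    have h5 : (9 ^ N : ℝ)⁻¹ ≤ (A ^ N)⁻¹ := inv_anti₀ (by positivity) (pow_le_pow_left₀ hA0.le h2 N)
    have h6 : (3 ^ N : ℝ)⁻¹ ≤ (E ^ N)⁻¹ := inv_anti₀ (by positivity) (pow_le_pow_left₀ hE0.le h3 N)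
    have h7 : (27 ^ N : ℝ)⁻¹ ≤ (A ^ N)⁻¹ * (E ^ N)⁻¹ := by
      calc (27 ^ N : ℝ)⁻¹ = (9 ^ N : ℝ)⁻¹ * (3 ^ N : ℝ)⁻¹ := by
            rw [← mul_inv, ← mul_pow]; norm_num
        _ ≤ _ := mul_le_mul h5 h6 (by positivity) (by positivity)
    calc ‖MK (mj n lam Lam t) x‖ ≤ V := h1
      _ = V * 27 ^ N * (27 ^ N)⁻¹ := by
          rw [mul_assoc, mul_inv_cancel₀ (by positivity), mul_one]
      _ ≤ (|C0 * B| * 2 ^ n * (2 ^ N + 1) + V * 27 ^ N) * (27 ^ N)⁻¹ := by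
          apply mul_le_mul_of_nonneg_right _ (by positivity)
          have : 0 ≤ |C0 * B| * 2 ^ n * (2 ^ N + 1) := by positivity
          linarith
      _ ≤ (|C0 * B| * 2 ^ n * (2 ^ N + 1) + V * 27 ^ N) * (1 * ((A ^ N)⁻¹ * (E ^ N)⁻¹)) := by
          rw [one_mul]
          exact mul_le_mul_of_nonneg_left h7 (by positivity)
      _ ≤ (|C0 * B| * 2 ^ n * (2 ^ N + 1) + V * 27 ^ N) * (lam ^ ((n : ℝ) / 2 + 1) *
            ((A ^ N)⁻¹ * (E ^ N)⁻¹)) := by
          apply mul_le_mul_of_nonneg_left _ (by positivity)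
          exact mul_le_mul_of_nonneg_right hpow (by positivity)
      _ = _ := by ring
  · -- main case
    obtain ⟨R, hRd⟩ : ∃ R : ℝ, R = lam * ‖x‖ := ⟨_, rfl⟩
    rw [← hRd] at hR
    have hR0 : 0 < R := by linarith
    have hRl : lam / 4 ≤ R := by rw [hRd]; nlinarith
    have hsR : Real.sqrt lam / 2 ≤ Real.sqrt R := by
      rw [show Real.sqrt lam / 2 = Real.sqrt (lam / 4) by
        rw [Real.sqrt_div hl0.le, show Real.sqrt 4 = 2 by
          rw [show (4 : ℝ) = 2 ^ 2 by norm_num]; exact Real.sqrt_sq (by norm_num)]]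
      exact Real.sqrt_le_sqrt hRl
    have hsR0 : 0 < Real.sqrt R := Real.sqrt_pos.mpr hR0
    have hRα : 1 / Real.sqrt R ≤ α := by
      have h1 : 1 / Real.sqrt R ≤ 2 / Real.sqrt lam := by
        rw [div_le_div_iff₀ hsR0 hs0]
        linarith
      refine h1.trans ?_
      rw [hα, div_le_div_iff₀ hs0 hl0]
      have h2 : 4 * Real.sqrt lam ≤ Lam := by
        have h3 : (4 * Real.sqrt lam) ^ 2 ≤ Lam ^ 2 := by
          rw [mul_pow, Real.sq_sqrt hl0.le]; linarith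
        exact (pow_le_pow_iff_left₀ (by positivity) hL.le (by norm_num)).mp h3
      nlinarith
    obtain ⟨u, hu⟩ : ∃ u : EE (n + 1), u = -(‖x‖⁻¹ • x) := ⟨_, rfl⟩
    have hun : ‖u‖ = 1 := by
      rw [hu, norm_neg, norm_smul, norm_inv, norm_norm, inv_mul_cancel₀ hx0.ne']
    have hhu : hor u = hor x / ‖x‖ := by
      rw [hu, hor_neg_smul _ (by positivity)]
      ring
    have hsup : ∀ (s : ℝ) (w : EE (n + 1)), ‖w‖ = 1 → gj n α (s, w) ≠ 0 →
        D ≤ ‖w - u‖ ∧ 0 ≤ ‖w + u‖ := by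
      intro s w hw hg
      refine ⟨?_, norm_nonneg _⟩
      rw [hD]
      apply max_le (norm_nonneg _)
      unfold gj at hg
      have h1 : s ^ n * (chi s * chi (s * hor w / α)) ≠ 0 := by exact_mod_cast hg
      have h2 := right_ne_zero_of_mul h1
      have h3 := (Pool.Agent.H83.LS.H27.chi_supp (left_ne_zero_of_mul h2)).1
      have h4 := (Pool.Agent.H83.LS.H27.chi_supp (right_ne_zero_of_mul h2)).2
      rw [div_lt_iff₀ hα0] at h4
      have h5 : hor w ≤ 4 * α := by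
        have := Pool.Agent.H54.LS.hor_nonneg w
        nlinarith
      have h6 := hor_sub_hor_le u w
      rw [norm_sub_rev, hhu] at h6
      rw [← hα]
      linarith
    have hmain := hC0 (gj n α) α B (lam * t) R D 0 u (hB α hα0 hα4) hR hRα hun hD0 le_rfl hsup
    have hMK := (hCKP n lam Lam t x (by omega) hl0 hL).2 hxne
    rw [← hα, ← hRd, ← hu] at hMK
    rw [hMK, norm_mul, Complex.norm_real, Real.norm_eq_abs, abs_of_nonneg (by positivity : (0:ℝ) ≤ lam ^ (n + 1))]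
    have ht1 := ht.1
    have e1 : ((1 + |lam * t - R|) ^ (2 * N))⁻¹ ≤ (A ^ N)⁻¹ := by
      apply inv_pow_two_mul_le N hA0
      · rw [hAd, hRd, ← mul_sub, abs_mul, abs_of_pos hl0, abs_sub_comm]
      · have := abs_nonneg (lam * t - R); linarith
    have e2 : ((1 + Real.sqrt R * D) ^ (2 * N))⁻¹ ≤ 2 ^ N * (E ^ N)⁻¹ := by
      have h1 : ((1 + Real.sqrt R * D) ^ (2 * N))⁻¹ ≤ ((E / 2) ^ N)⁻¹ := by
        apply inv_pow_two_mul_le N (by positivity)
        · rw [hEd]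
          have : Real.sqrt lam / 2 * D ≤ Real.sqrt R * D := mul_le_mul_of_nonneg_right hsR hD0
          linarith
        · have : 0 ≤ Real.sqrt R * D := by positivity
          linarith
      refine h1.trans (le_of_eq ?_)
      rw [div_pow, inv_div, div_eq_mul_inv]
    have e3 : ((1 + |lam * t + R|) ^ (2 * N))⁻¹ ≤ (A ^ N)⁻¹ * (E ^ N)⁻¹ := by
      have h0 : 0 < lam * t + R := by positivity
      rw [abs_of_pos h0]
      apply inv_pow_two_mul_le' N hA0 _ hE0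
      · rw [hEd, hRd]
        have h1 : Real.sqrt lam * D ≤ lam := by nlinarith
        nlinarith
      · rw [hAd, hRd]
        have h1 : |‖x‖ - t| ≤ ‖x‖ + t := by
          rw [abs_le]; constructor <;> linarith
        nlinarith
    have e4 : (Real.sqrt R ^ (n + 1 - 1))⁻¹ ≤ 2 ^ n * (Real.sqrt lam ^ n)⁻¹ := by
      rw [Nat.add_sub_cancel]
      have h1 : (Real.sqrt lam / 2) ^ n ≤ Real.sqrt R ^ n := pow_le_pow_left₀ (by positivity) hsR n
      refine (inv_anti₀ (by positivity) h1).trans (le_of_eq ?_)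
      rw [div_pow, inv_div, div_eq_mul_inv]
    have e5 : lam ^ (n + 1) * (Real.sqrt lam ^ n)⁻¹ = lam ^ ((n : ℝ) / 2 + 1) := by
      rw [Real.sqrt_eq_rpow, ← Real.rpow_natCast (lam ^ (1 / 2 : ℝ)) n, ← Real.rpow_mul hl0.le,
        ← Real.rpow_neg hl0.le, ← Real.rpow_natCast lam (n + 1), ← Real.rpow_add hl0]
      congr 1
      push_cast
      ring
    have e6 : ‖osc (n + 1) (gj n α) (lam * t) R u‖ ≤ |C0 * B| * (2 ^ n * (Real.sqrt lam ^ n)⁻¹) *
        ((2 ^ N + 1) * ((A ^ N)⁻¹ * (E ^ N)⁻¹)) := by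
      refine hmain.trans ?_
      have h1 : ((1 + |lam * t - R|) ^ (2 * N))⁻¹ * ((1 + Real.sqrt R * D) ^ (2 * N))⁻¹ +
          ((1 + |lam * t + R|) ^ (2 * N))⁻¹ * ((1 + Real.sqrt R * 0) ^ (2 * N))⁻¹ ≤
          (2 ^ N + 1) * ((A ^ N)⁻¹ * (E ^ N)⁻¹) := by
        rw [mul_zero, add_zero, one_pow, inv_one, mul_one]
        have h2 := mul_le_mul e1 e2 (by positivity) (by positivity)
        calc _ ≤ (A ^ N)⁻¹ * (2 ^ N * (E ^ N)⁻¹) + (A ^ N)⁻¹ * (E ^ N)⁻¹ := add_le_add h2 e3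
          _ = _ := by ring
      calc _ ≤ |C0 * B| * (Real.sqrt R ^ (n + 1 - 1))⁻¹ * (((1 + |lam * t - R|) ^ (2 * N))⁻¹ *
            ((1 + Real.sqrt R * D) ^ (2 * N))⁻¹ +
            ((1 + |lam * t + R|) ^ (2 * N))⁻¹ * ((1 + Real.sqrt R * 0) ^ (2 * N))⁻¹) := by
            apply mul_le_mul_of_nonneg_right _ (by positivity)
            exact mul_le_mul_of_nonneg_right (le_abs_self _) (by positivity)
        _ ≤ |C0 * B| * (2 ^ n * (Real.sqrt lam ^ n)⁻¹) * ((2 ^ N + 1) * ((A ^ N)⁻¹ * (E ^ N)⁻¹)) := by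
            apply mul_le_mul _ h1 (by positivity) (by positivity)
            exact mul_le_mul_of_nonneg_left e4 (abs_nonneg _)
    calc lam ^ (n + 1) * ‖osc (n + 1) (gj n α) (lam * t) R u‖ ≤
        lam ^ (n + 1) * (|C0 * B| * (2 ^ n * (Real.sqrt lam ^ n)⁻¹) *
        ((2 ^ N + 1) * ((A ^ N)⁻¹ * (E ^ N)⁻¹))) := mul_le_mul_of_nonneg_left e6 (by positivity)
      _ = |C0 * B| * 2 ^ n * (2 ^ N + 1) * (lam ^ (n + 1) * (Real.sqrt lam ^ n)⁻¹) *
          ((A ^ N)⁻¹ * (E ^ N)⁻¹) := by ring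
      _ = |C0 * B| * 2 ^ n * (2 ^ N + 1) * lam ^ ((n : ℝ) / 2 + 1) * ((A ^ N)⁻¹ * (E ^ N)⁻¹) := by
          rw [e5]
      _ ≤ (|C0 * B| * 2 ^ n * (2 ^ N + 1) + V * 27 ^ N) * lam ^ ((n : ℝ) / 2 + 1) *
          ((A ^ N)⁻¹ * (E ^ N)⁻¹) := by
          apply mul_le_mul_of_nonneg_right _ (by positivity)
          apply mul_le_mul_of_nonneg_right _ (by positivity)
          have : 0 ≤ V * 27 ^ N := by positivity
          linarith
      _ = _ := by ring

end Pool.Agent.H11.BR
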