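import Pool.Agent.H79.BR.Targets
import Pool.Agent.H27.LS.LOWX

/-!
Module CX1 of br_modules (board of helpers 93, 83, 79): the L1 norm of the kernel of mj for
low frequencies.
-/

set_option autoImplicit false

namespace Pool.Agent.H11.BR

open MeasureTheory Set FourierTransform
open Pool.Agent.H83.LS Pool.Agent.H93.AR Pool.Agent.H54.LS Pool.Agent.H14.LS Pool.Agent.H79.BR
open scoped ENNReal NNReal

lemma contDiff_par3 (n : ℕ) (i : Fin 3) :
    ContDiff ℝ (⊤ : ℕ∞) (fun q : (Fin 3 → ℝ) × EE (n + 1) => q.1 i) :=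
  (contDiff_apply ℝ ℝ i).comp contDiff_fst

theorem pf_cx1 (hKBV : T_KBV) : T_CX1 := by
  intro n _
  obtain ⟨Ψ, hΨ⟩ : ∃ Ψ : (Fin 3 → ℝ) × EE (n + 1) → ℂ, Ψ = fun q =>
    e (q.1 0 * ‖q.2‖) * ((chi (‖q.2‖ * q.1 1) * chi (hor q.2 * q.1 2) : ℝ) : ℂ) := ⟨_, rfl⟩
  obtain ⟨O, hO⟩ : ∃ O : Set (Fin 3 → ℝ), O = {p | (1 / 2048 < p 1 ∧ p 1 < 2) ∧
    (1 / 8192 < p 2 ∧ p 2 < 2)} := ⟨_, rfl⟩
  have hOo : IsOpen O := by
    rw [hO]
    exact ((isOpen_lt continuous_const (continuous_apply 1)).inter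
      (isOpen_lt (continuous_apply 1) continuous_const)).inter
      ((isOpen_lt continuous_const (continuous_apply 2)).inter
      (isOpen_lt (continuous_apply 2) continuous_const))
  have hKO : Icc (![1, 1 / 1024, 1 / 4096] : Fin 3 → ℝ) ![2, 1, 1] ⊆ O := by
    intro p hp
    rw [hO]
    have h1 := hp.1 1
    have h2 := hp.2 1
    have h3 := hp.1 2
    have h4 := hp.2 2
    simp at h1 h2 h3 h4
    refine ⟨⟨?_, ?_⟩, ?_, ?_⟩
    · norm_num; linarith
    · linarith
    · norm_num; linarith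
    · linarith
  have hchc : Continuous (hor : EE (n + 1) → ℝ) := Pool.Agent.H83.LS.H27.continuous_hor n
  have hsm : ContDiffOn ℝ (⊤ : ℕ∞) Ψ (O ×ˢ univ) := by
    intro q hq
    apply ContDiffAt.contDiffWithinAt
    by_cases h0 : ‖q.2‖ * q.1 1 < 1 / 2
    · have h1 : Ψ =ᶠ[nhds q] fun _ => (0 : ℂ) := by
        have hc : Continuous (fun q : (Fin 3 → ℝ) × EE (n + 1) => ‖q.2‖ * q.1 1) := by fun_prop
        filter_upwards [hc.continuousAt.eventually (Iio_mem_nhds h0)] with y hy
        have h2 : chi (‖y.2‖ * y.1 1) = 0 := by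
          by_contra h3
          have := (chi_supp h3).1
          have hy' : ‖y.2‖ * y.1 1 < 1 / 2 := hy
          linarith
        rw [hΨ]
        simp [h2]
      exact contDiffAt_const.congr_of_eventuallyEq h1
    · by_cases h00 : hor q.2 * q.1 2 < 1 / 2
      · have h1 : Ψ =ᶠ[nhds q] fun _ => (0 : ℂ) := by
          have hc : Continuous (fun q : (Fin 3 → ℝ) × EE (n + 1) => hor q.2 * q.1 2) :=
            (hchc.comp continuous_snd).mul ((continuous_apply 2).comp continuous_fst)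
          filter_upwards [hc.continuousAt.eventually (Iio_mem_nhds h00)] with y hy
          have h2 : chi (hor y.2 * y.1 2) = 0 := by
            by_contra h3
            have := (chi_supp h3).1
            have hy' : hor y.2 * y.1 2 < 1 / 2 := hy
            linarith
          rw [hΨ]
          simp [h2]
        exact contDiffAt_const.congr_of_eventuallyEq h1
      · have hq2 : q.2 ≠ 0 := by
          intro h1
          rw [h1, norm_zero, zero_mul] at h0
          norm_num at h0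
        have hq3 : hor q.2 ≠ 0 := by
          intro h1
          rw [h1, zero_mul] at h00
          norm_num at h00
        have hn : ContDiffAt ℝ (⊤ : ℕ∞) (fun q : (Fin 3 → ℝ) × EE (n + 1) => ‖q.2‖) q :=
          (contDiffAt_snd).norm ℝ hq2
        have hh : ContDiffAt ℝ (⊤ : ℕ∞) (fun q : (Fin 3 → ℝ) × EE (n + 1) => hor q.2) q := by
          have h1 : Pool.Agent.H83.LS.H27.r2 q.2 ≠ 0 := by
            intro h
            apply hq3
            rw [Pool.Agent.H83.LS.H27.hor_eq, h, Real.sqrt_zero]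
          have h2 : ContDiffAt ℝ (⊤ : ℕ∞) (hor : EE (n + 1) → ℝ) q.2 :=
            (Pool.Agent.H83.LS.H27.contDiff_r2 n).contDiffAt.sqrt h1
          exact h2.comp q contDiffAt_snd
        rw [hΨ]
        apply ContDiffAt.mul
        · exact contDiff_e.contDiffAt.comp q ((contDiff_par3 n 0).contDiffAt.mul hn)
        · apply Complex.ofRealCLM.contDiff.contDiffAt.comp q
          apply ContDiffAt.mul
          · exact Pool.Agent.H83.LS.H27.contDiff_chi.contDiffAt.comp q (hn.mul (contDiff_par3 n 1).contDiffAt)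
          · exact Pool.Agent.H83.LS.H27.contDiff_chi.contDiffAt.comp q (hh.mul (contDiff_par3 n 2).contDiffAt)
  have hsupp : ∀ p ∈ O, ∀ ξ : EE (n + 1), (4096 : ℝ) < ‖ξ‖ → Ψ (p, ξ) = 0 := by
    intro p hp ξ hξ
    rw [hO] at hp
    have h2 : chi (‖ξ‖ * p 1) = 0 := by
      by_contra h3
      have h4 := (chi_supp h3).2
      have h5 := hp.1.1
      nlinarith
    rw [hΨ]
    simp [h2]
  obtain ⟨C, hC⟩ := hKBV (n + 1) 3 (Icc ![1, 1 / 1024, 1 / 4096] ![2, 1, 1]) O Ψ 4096
    isCompact_Icc hOo hKO hsm hsupp (n + 2)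
  obtain ⟨J, hJ⟩ : ∃ J : ℝ≥0∞, J = ∫⁻ x : EE (n + 1), ENNReal.ofReal (((1 + ‖x‖) ^ (n + 2))⁻¹) :=
    ⟨_, rfl⟩
  have hJt : J ≠ ∞ := by rw [hJ]; exact (Pool.Agent.H83.LS.H27.integrable_wN n).ne
  refine ⟨(ENNReal.ofReal |C| * J).toNNReal, fun lam Lam t h1 hL1 hL2 ht h2 => ?_⟩
  rw [ENNReal.coe_toNNReal (ENNReal.mul_ne_top ENNReal.ofReal_ne_top hJt), hJ,
    ← lintegral_const_mul' _ _ ENNReal.ofReal_ne_top]
  apply lintegral_mono
  intro x
  beta_reduce
  have hp : (![t, 1 / lam, 1 / Lam] : Fin 3 → ℝ) ∈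
      Icc (![1, 1 / 1024, 1 / 4096] : Fin 3 → ℝ) ![2, 1, 1] := by
    have h3 : 1 / lam ≤ 1 := by rw [div_le_one (by linarith)]; exact h1
    have h4 : 1 / 1024 ≤ 1 / lam := one_div_le_one_div_of_le (by linarith) h2
    have h5 : 1 / Lam ≤ 1 := by rw [div_le_one (by linarith)]; exact hL1
    have h6 : 1 / 4096 ≤ 1 / Lam := one_div_le_one_div_of_le (by linarith) (by linarith)
    constructor
    · intro i; fin_cases i
      · exact ht.1
      · exact h4
      · exact h6
    · intro i; fin_cases i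
      · exact ht.2
      · exact h3
      · exact h5
  have h3 := hC _ hp x
  rw [← ENNReal.ofReal_mul (abs_nonneg _), ← ofReal_norm]
  apply ENNReal.ofReal_le_ofReal
  rw [← div_eq_mul_inv, le_div_iff₀ (by positivity)]
  refine le_trans (le_of_eq ?_) (h3.trans (le_abs_self C))
  congr 3
  ext ξ
  rw [hΨ]
  simp [mj, div_eq_mul_inv]

end Pool.Agent.H11.BR
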